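import Mathlib

/-! Copied from the library module `Pool.Graph.R_pool_sql_team_ae5b0c61.H56.Der1/Der2` (proof of the frozen
statement S03921): finite joint graphs of compositions of Darboux Baire-one functions. -/

set_option autoImplicit false

namespace Pool.Agent.KS6_22.DB

open Filter Topology Set Metric

def Dar (f : ℝ → ℝ) : Prop := ∀ a b, ∀ w ∈ uIcc (f a) (f b), ∃ t ∈ uIcc a b, f t = w

def B1 (f : ℝ → ℝ) : Prop :=
  ∃ u : ℕ → ℝ → ℝ, (∀ m, Continuous (u m)) ∧ ∀ y, Tendsto (u · y) atTop (𝓝 (f y))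

theorem Dar.near {f : ℝ → ℝ} (h : Dar f) {s t r : ℝ} (hst : t ≠ s) (hr : 0 < r) :
    ∃ w ∈ uIcc s t, w ≠ s ∧ |f w - f s| < r := by
  by_cases h1 : |f t - f s| < r
  · exact ⟨t, right_mem_uIcc, hst, h1⟩
  rcases le_abs'.1 (not_lt.1 h1) with h2 | h2
  · obtain ⟨w, w1, w2⟩ := h s t (f s - r / 2) (mem_uIcc.2 (Or.inr ⟨by linarith, by linarith⟩))
    exact ⟨w, w1, by rintro rfl; linarith, abs_lt.2 ⟨by linarith, by linarith⟩⟩
  · obtain ⟨w, w1, w2⟩ := h s t (f s + r / 2) (mem_uIcc.2 (Or.inl ⟨by linarith, by linarith⟩))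
    exact ⟨w, w1, by rintro rfl; linarith, abs_lt.2 ⟨by linarith, by linarith⟩⟩

theorem B1.gd {f : ℝ → ℝ} (h : B1 f) : IsGδ {q : ℝ × ℝ | q.2 = f q.1} := by
  obtain ⟨u, h1, h2⟩ := h
  have : {q : ℝ × ℝ | q.2 = f q.1} = ⋂ k : ℕ, ⋃ m ≥ k, {q | dist (u m q.1) q.2 < 1 / (k + 1)} := by
    ext ⟨y, z⟩
    simp only [Set.mem_ofPred_eq, mem_iInter, mem_iUnion]
    constructor
    · rintro rfl k
      obtain ⟨m, a1, a2⟩ := ((Metric.tendsto_nhds.1 (h2 y) _ (Nat.one_div_pos_of_nat (n := k))).and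
        (eventually_ge_atTop k)).exists
      exact ⟨m, a2, a1⟩
    · intro h
      refine eq_of_forall_dist_le fun ε hε => ?_
      obtain ⟨k, a1, a2⟩ := ((eventually_atTop.1 (Metric.tendsto_nhds.1 (h2 y) _ (half_pos hε))).elim
        fun N hN => (eventually_ge_atTop N).mono fun k hk m (hm : k ≤ m) => hN m (hk.trans hm)).and
        (tendsto_one_div_add_atTop_nhds_zero_nat.eventually (eventually_lt_nhds (half_pos hε)))
        |>.exists
      obtain ⟨m, b1, b2⟩ := h k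
      have := dist_triangle_left z (f y) (u m y)
      linarith [a1 m b1]
  rw [this]
  exact .iInter fun k => (isOpen_biUnion fun m _ => isOpen_lt (by fun_prop) continuous_const).isGδ

theorem cont_pt {Y : Type} [TopologicalSpace Y] [BaireSpace Y] [Nonempty Y] {u : ℕ → Y → ℝ}
    {f : Y → ℝ} (h1 : ∀ m, Continuous (u m)) (h2 : ∀ y, Tendsto (u · y) atTop (𝓝 (f y))) :
    ∃ p, ContinuousAt f p := by
  let S : ℕ → ℕ → Set Y := fun k m => ⋂ i ≥ m, {y | dist (u i y) (u m y) ≤ 1 / (k + 1)}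
  have a1 : ∀ k, Dense (⋃ m, interior (S k m)) := fun k =>
    dense_iUnion_interior_of_closed (fun m => isClosed_biInter fun i _ =>
      isClosed_le (by fun_prop) continuous_const) (eq_univ_of_forall fun y => by
        obtain ⟨m, hm⟩ := Metric.cauchySeq_iff'.1 (h2 y).cauchySeq _ (Nat.one_div_pos_of_nat (n := k))
        exact mem_iUnion.2 ⟨m, mem_iInter₂.2 fun i hi => (hm i hi).le⟩)
  obtain ⟨p, hp⟩ := (dense_iInter_of_isOpen (fun k => isOpen_iUnion fun m => isOpen_interior)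
    a1).nonempty
  refine ⟨p, Metric.tendsto_nhds.2 fun ε hε => ?_⟩
  obtain ⟨k, hk⟩ := exists_nat_one_div_lt (show 0 < ε / 3 by positivity)
  obtain ⟨m, hm⟩ := mem_iUnion.1 (mem_iInter.1 hp k)
  have a2 : ∀ y ∈ S k m, dist (f y) (u m y) ≤ 1 / (k + 1) := fun y hy =>
    le_of_tendsto ((h2 y).dist tendsto_const_nhds)
      ((eventually_ge_atTop m).mono fun i hi => mem_iInter₂.1 hy i hi)
  filter_upwards [mem_interior_iff_mem_nhds.1 hm, Metric.tendsto_nhds.1 (h1 m).continuousAt _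
    (show 0 < ε / 3 by positivity)] with y b1 b2
  have := dist_triangle4_right (f y) (f p) (u m y) (u m p)
  linarith [a2 y b1, a2 p (interior_subset hm)]

def ch (g : ℕ → ℝ → ℝ) : ℕ → ℝ → ℝ
  | 0, x => x
  | j + 1, x => g j (ch g j x)

variable {g : ℕ → ℝ → ℝ} {n : ℕ}

theorem ch_add (g : ℕ → ℝ → ℝ) (i j : ℕ) (x : ℝ) :
    ch g (i + j) x = ch (fun k => g (i + k)) j (ch g i x) := by
  induction j with
  | zero => rfl
  | succ j ih => exact congrArg (g (i + j)) ih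

theorem box (h : ∀ i, Dar (g i)) (x x' : ℝ) (m : ℕ) : ∀ w ∈ uIcc (ch g m x) (ch g m x'),
    ∃ y, ch g m y = w ∧ ∀ j ≤ m, ch g j y ∈ uIcc (ch g j x) (ch g j x') := by
  induction m with
  | zero => exact fun w hw => ⟨w, rfl, fun j hj => by obtain rfl : j = 0 := by omega
                                                      exact hw⟩
  | succ m ih =>
    intro w hw
    obtain ⟨t, t1, t2⟩ := h m _ _ w hw
    obtain ⟨y, y1, y2⟩ := ih t t1
    have e : ch g (m + 1) y = w := by rw [← t2, ← y1]; rfl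
    refine ⟨y, e, fun j hj => ?_⟩
    rcases hj.eq_or_lt with rfl | hj
    · rwa [e]
    · exact y2 j (by omega)

theorem uabs {a b c r : ℝ} (h : c ∈ uIcc a b) (hr : |b - a| < r) : |c - a| < r :=
  (abs_sub_left_of_mem_uIcc h).trans_lt hr

theorem bil (h : ∀ i, Dar (g i)) {s t r : ℝ} (hst : t ≠ s) (hr : 0 < r) (m : ℕ) :
    ∃ w ∈ uIcc s t, w ≠ s ∧ ∀ j ≤ m, |ch g j w - ch g j s| < r := by
  induction m with
  | zero =>
    obtain ⟨w, a1, a2, a3⟩ := Dar.near (f := id) (fun a b w hw => ⟨w, hw, rfl⟩) hst hr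
    exact ⟨w, a1, a2, fun j hj => by obtain rfl : j = 0 := by omega
                                     exact a3⟩
  | succ m ih =>
    obtain ⟨w, a1, a2, a3⟩ := ih
    by_cases hc : ch g m w = ch g m s
    · refine ⟨w, a1, a2, fun j hj => ?_⟩
      rcases hj.eq_or_lt with rfl | hj
      · simpa [ch, hc] using hr
      · exact a3 j (by omega)
    obtain ⟨v, b1, b2, b3⟩ := (h m).near hc hr
    obtain ⟨y, rfl, c2⟩ := box h s w m v b1
    refine ⟨y, uIcc_subset_uIcc left_mem_uIcc a1 (c2 0 (by omega)), by rintro rfl; exact b2 rfl,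
      fun j hj => ?_⟩
    rcases hj.eq_or_lt with rfl | hj
    · exact b3
    · exact uabs (c2 j (by omega)) (a3 j (by omega))

theorem bar (h : ∀ i, Dar (g i)) (p : ℝ) {r : ℝ} (hr : 0 < r) (m i : ℕ) {t : ℝ} (ht : t ≠ ch g i p) :
    ∃ T ∈ uIcc (ch g i p) t, T ≠ ch g i p ∧ |T - ch g i p| < r ∧
      ∀ x, ch g i x = T → |ch g (i + m) x - ch g (i + m) p| < r := by
  obtain ⟨w, a1, a2, a3⟩ := bil (g := fun k => g (i + k)) (fun k => h _) ht hr m
  exact ⟨w, a1, a2, a3 0 (by omega), fun x hx => by rw [ch_add, ch_add, hx]; exact a3 m le_rfl⟩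

def Z (_g : ℕ → ℝ → ℝ) (_n : ℕ) : Type := ℝ

def gam (g : ℕ → ℝ → ℝ) (n : ℕ) (x : Z g n) : Fin (n + 1) → ℝ := fun j => ch g j x

noncomputable instance : PseudoMetricSpace (Z g n) := .induced (gam g n) inferInstance

theorem dist_lt {x y : Z g n} {r : ℝ} (hr : 0 < r) :
    dist x y < r ↔ ∀ j ≤ n, |ch g j x - ch g j y| < r :=
  (dist_pi_lt_iff hr).trans ⟨fun h j hj => h ⟨j, by omega⟩, fun h j => h j (by omega)⟩

theorem cont {j : ℕ} (hj : j ≤ n) : Continuous fun x : Z g n => ch g j x :=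
  (continuous_apply (⟨j, by omega⟩ : Fin (n + 1))).comp (continuous_induced_dom (f := gam g n))

theorem gd (h : ∀ i, B1 (g i)) : IsGδ (range (gam g n)) := by
  have : range (gam g n) = ⋂ j : Fin n, (fun p => (p j.castSucc, p j.succ)) ⁻¹'
      {q : ℝ × ℝ | q.2 = g j q.1} := by
    ext p
    simp only [mem_iInter, mem_preimage, Set.mem_ofPred_eq]
    refine ⟨by rintro ⟨x, rfl⟩ j; rfl, fun hp => ⟨p 0, funext fun ⟨j, hj⟩ => ?_⟩⟩
    induction j with
    | zero => rfl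
    | succ j ih => exact (congrArg (g j) (ih (by omega))).trans (hp ⟨j, by omega⟩).symm
  rw [this]
  exact .iInter fun j => (h j).gd.preimage (by fun_prop)

theorem cont_on (h : ∀ i, B1 (g i)) {D : Set (Z g n)} (h1 : IsClosed D) (h2 : D.Nonempty) :
    ∃ p ∈ D, ∀ ε > 0, ∃ r > 0, ∀ x ∈ D, dist x p < r → |ch g (n + 1) x - ch g (n + 1) p| < ε := by
  obtain ⟨C, c1, rfl⟩ := isClosed_induced_iff.1 h1
  have := ((gd (n := n) h).inter c1.isGδ).baireSpace_of_t2Space_locallyCompactSpace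
  obtain ⟨x, hx⟩ := h2
  have : Nonempty ↥(range (gam g n) ∩ C) := ⟨⟨_, mem_range_self x, hx⟩⟩
  obtain ⟨u, u1, u2⟩ := h n
  obtain ⟨⟨_, ⟨p, rfl⟩, p1⟩, hp⟩ := cont_pt (Y := ↥(range (gam g n) ∩ C))
    (u := fun m q => u m (q.1 (Fin.last n)))
    (fun m => (u1 m).comp ((continuous_apply _).comp continuous_subtype_val)) fun q => u2 _
  refine ⟨p, p1, fun ε hε => ?_⟩
  obtain ⟨r, r0, hr⟩ := Metric.continuousAt_iff.1 hp ε hε
  exact ⟨r, r0, fun y hy h => hr (x := ⟨_, mem_range_self y, hy⟩) h⟩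




theorem core (h : ∀ i, Dar (g i)) [PreconnectedSpace (Z g n)] {A : Set (Z g n)} {p : Z g n}
    (p1 : p ∈ frontier A) (p2 : p ∉ A) {ε : ℝ} (hε : 0 < ε)
    (h1 : ∀ x, (∀ j ≤ n + 1, |ch g j x - ch g j p| < ε) → x ∉ A) {r : ℝ} (hr : 0 < r)
    (h2 : ∀ x ∈ frontier A, dist x p < r → |ch g (n + 1) x - ch g (n + 1) p| < ε) : False := by
  wlog hre : r ≤ ε generalizing r
  · exact this hε (fun x hx hx' => h2 x hx (by linarith)) le_rfl
  let Bar := {w | |g n w - ch g (n + 1) p| < ε}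
  have a3 : ∀ x : Z g n, dist x p < r → ch g n x ∈ Bar → x ∉ A := fun x hx hb => h1 x fun j hj => by
    rcases hj.eq_or_lt with rfl | hj
    · exact hb
    · exact ((dist_lt hr).1 hx j (by omega)).trans_le hre
  choose T t1 t2 t3 t4 using fun i =>
    bar h p hr (n + 1 - i) i (t := ch g i p + 1) (by linarith [zero_lt_one' ℝ])
  choose S s1 s2 s3 s4 using fun i =>
    bar h p hr (n + 1 - i) i (t := ch g i p - 1) (by linarith [zero_lt_one' ℝ])
  let O := ⋂ i ∈ Iic n, {x : Z g n | ch g i x ∈ Ioo (S i) (T i)}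
  let K := ⋂ i ∈ Iic n, {x : Z g n | ch g i x ∈ Icc (S i) (T i)}
  have o1 : IsOpen O := (finite_Iic n).isOpen_biInter fun i hi => isOpen_Ioo.preimage (cont hi)
  have k1 : IsClosed K := isClosed_biInter fun i hi => isClosed_Icc.preimage (cont hi)
  have o2 : O ⊆ K := iInter₂_mono fun i _ x hx => Ioo_subset_Icc_self hx
  have k2 : ∀ x ∈ K, dist x p < r := fun x hx => (dist_lt hr).2 fun j hj => by
    have := mem_iInter₂.1 hx j hj
    exact abs_lt.2 ⟨by linarith [this.1, (abs_lt.1 (s3 j)).1], by linarith [this.2, (abs_lt.1 (t3 j)).2]⟩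
  have k3 : ∀ x ∈ K, ch g n x ∉ Bar → x ∈ O := fun x hx hb => mem_iInter₂.2 fun j hj => by
    have e : j + (n + 1 - j) = n + 1 := by have : j ≤ n := hj
                                           omega
    have := mem_iInter₂.1 hx j hj
    refine ⟨this.1.lt_of_ne fun h => hb ?_, this.2.lt_of_ne fun h => hb ?_⟩
    · exact (e ▸ s4 j x h.symm : |ch g (n + 1) x - ch g (n + 1) p| < r).trans_le hre
    · exact (e ▸ t4 j x h : |ch g (n + 1) x - ch g (n + 1) p| < r).trans_le hre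
  obtain ⟨a, a1, a2⟩ := mem_closure_iff.1 p1.1 O o1 (mem_iInter₂.2 fun i _ =>
    ⟨((uIcc_of_ge (by linarith : ch g i p - 1 ≤ ch g i p)).subset (s1 i)).2.lt_of_ne (s2 i),
      ((uIcc_of_le (by linarith : ch g i p ≤ ch g i p + 1)).subset (t1 i)).1.lt_of_ne (t2 i).symm⟩)
  have a4 : ch g n a ∉ Bar := fun hb => a3 a (k2 a (o2 a1)) hb a2
  let F := {x : Z g n | x ∈ A ∧ x ∈ K ∧ ∀ w ∈ uIcc (ch g n a) (ch g n x), w ∉ Bar}
  have f0 : ∀ x ∈ closure A, x ∈ K → ch g n x ∉ Bar → x ∈ interior A := fun x x1 x2 x3 => by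
    by_contra hc
    exact x3 (h2 x ⟨x1, hc⟩ (k2 x x2))
  have f1 : IsOpen F := isOpen_iff_mem_nhds.2 fun x hx => by
    have b1 := hx.2.2 _ right_mem_uIcc
    obtain ⟨ρ, ρ0, hρ⟩ := Metric.isOpen_iff.1 (isOpen_interior.inter o1) x
      ⟨f0 x (subset_closure hx.1) hx.2.1 b1, k3 x hx.2.1 b1⟩
    refine mem_of_superset (ball_mem_nhds x ρ0) fun y hy =>
      ⟨interior_subset (hρ hy).1, o2 (hρ hy).2, fun w hw hb => ?_⟩
    rcases uIcc_subset_uIcc_union_uIcc (b := ch g n x) hw with hw | hw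
    · exact hx.2.2 w hw hb
    obtain ⟨z, rfl, z2⟩ := box h x y n w hw
    have : (z : Z g n) ∈ ball x ρ := (dist_lt ρ0).2 fun j hj =>
      uabs (z2 j hj) ((dist_lt ρ0).1 hy j hj)
    exact a3 z (k2 z (o2 (hρ this).2)) hb (interior_subset (hρ this).1)
  have f2 : IsClosed F := isClosed_of_closure_subset fun x hx => by
    have b1 : x ∈ K := closure_minimal (fun y hy => hy.2.1) k1 hx
    have b2 : ∀ w ∈ uIcc (ch g n a) (ch g n x), w ≠ ch g n x → w ∉ Bar := fun w hw hn => by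
      obtain ⟨y, y1, y2⟩ := Metric.mem_closure_iff.1 hx _ (abs_pos.2 (sub_ne_zero.2 hn))
      have := (dist_lt (abs_pos.2 (sub_ne_zero.2 hn))).1 y2 n le_rfl
      rcases uIcc_subset_uIcc_union_uIcc (b := ch g n y) hw with hw | hw
      · exact y1.2.2 w hw
      · rw [uIcc_comm] at hw
        rw [abs_sub_comm] at this
        exact absurd (uabs hw this) (lt_irrefl _)
    have b3 : ch g n x ∉ Bar := fun hb => by
      have hb' : |g n (ch g n x) - ch g (n + 1) p| < ε := hb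
      obtain ⟨w, w1, w2, w3⟩ := (h n).near (s := ch g n x) (t := ch g n a)
        (fun e => a4 (e ▸ hb)) (sub_pos.2 hb')
      refine b2 w (by rwa [uIcc_comm]) w2 ?_
      have := abs_sub_le (g n w) (g n (ch g n x)) (ch g (n + 1) p)
      show |g n w - ch g (n + 1) p| < ε
      linarith
    refine ⟨interior_subset (f0 x (closure_mono (fun y hy => hy.1) hx) b1 b3), b1, fun w hw => ?_⟩
    by_cases hn : w = ch g n x
    · exact hn ▸ b3
    · exact b2 w hw hn
  have := IsClopen.eq_univ ⟨f2, f1⟩ ⟨a, a2, o2 a1, by simpa using a4⟩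
  exact p2 (show p ∈ F from this ▸ mem_univ p).1

theorem conn (h : ∀ i, Dar (g i)) (h' : ∀ i, B1 (g i)) (n : ℕ) : PreconnectedSpace (Z g n) := by
  induction n with
  | zero =>
    let e : ℝ → Z g 0 := fun x => x
    have : Continuous e := continuous_induced_rng.2 (continuous_pi fun j => by
      obtain rfl : j = 0 := Fin.ext (by omega)
      exact continuous_id)
    exact ⟨(show range e = univ from range_eq_univ.2 fun x => ⟨x, rfl⟩) ▸ isPreconnected_range this⟩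
  | succ n ih =>
    refine ⟨isPreconnected_iff_subset_of_disjoint.2 fun U V hU hV h1 h2 => ?_⟩
    have e : V = Uᶜ := by
      rw [univ_inter] at h2
      exact (eq_compl_iff_isCompl.2 ⟨disjoint_iff_inter_eq_empty.2 (by rwa [inter_comm]),
        codisjoint_iff.2 (by rw [sup_comm]; exact univ_subset_iff.1 h1)⟩)
    subst e
    by_contra hc
    let A : Set (Z g n) := U
    have a1 : (frontier A).Nonempty := nonempty_frontier_iff.2
      ⟨nonempty_iff_ne_empty.2 fun h0 => hc (Or.inr (by rw [show U = ∅ from h0]; simp)),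
        fun h0 => hc (Or.inl (by rw [show U = univ from h0]))⟩
    obtain ⟨p, p1, p2⟩ := cont_on h' isClosed_frontier a1
    by_cases hp : p ∈ A
    · obtain ⟨ε, hε, a2⟩ := Metric.isOpen_iff.1 hU p hp
      obtain ⟨r, hr, a3⟩ := p2 ε hε
      exact core h (A := Aᶜ) (by rwa [frontier_compl]) (fun h => h hp) hε
        (fun x hx h => h (a2 ((dist_lt hε).2 hx))) hr (by rwa [frontier_compl])
    · obtain ⟨ε, hε, a2⟩ := Metric.isOpen_iff.1 hV p hp
      obtain ⟨r, hr, a3⟩ := p2 ε hε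
      exact core h p1 hp hε (fun x hx => a2 ((dist_lt hε).2 hx)) hr a3

noncomputable def cl (x : ℝ) : ℝ := max 0 (min x 1)

theorem cl_mem (x : ℝ) : cl x ∈ Icc (0 : ℝ) 1 :=
  ⟨le_max_left _ _, max_le zero_le_one (min_le_right _ _)⟩

theorem cl_eq {x : ℝ} (h : x ∈ Icc (0 : ℝ) 1) : cl x = x := by
  rw [cl, min_eq_left h.2, max_eq_right h.1]

theorem cl_cont : Continuous cl := by
  unfold cl
  fun_prop

theorem cl_dar : Dar cl := fun _ _ _ hw => intermediate_value_uIcc cl_cont.continuousOn hw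

theorem der {f F : ℝ → ℝ} (h : ∀ x ∈ Icc (0 : ℝ) 1, HasDerivWithinAt F (f x) (Icc 0 1) x) :
    Dar (f ∘ cl) ∧ B1 (f ∘ cl) := by
  refine ⟨fun a b w hw => ?_, ?_⟩
  · have s1 : uIcc (cl a) (cl b) ⊆ Icc 0 1 := ordConnected_Icc.uIcc_subset (cl_mem a) (cl_mem b)
    obtain ⟨t, t1, rfl⟩ := (ordConnected_uIcc.image_hasDerivWithinAt fun x hx =>
      (h x (s1 hx)).mono s1).uIcc_subset ⟨_, left_mem_uIcc, rfl⟩ ⟨_, right_mem_uIcc, rfl⟩ hw
    obtain ⟨s, s2, rfl⟩ := cl_dar a b t t1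
    exact ⟨s, s2, rfl⟩
  have c : ContinuousOn F (Icc 0 1) := fun x hx => (h x hx).continuousWithinAt
  have m1 : ∀ y ∈ Icc (0 : ℝ) 1, ∀ t ∈ Icc (0 : ℝ) 1, y + t * (1 - y) ∈ Icc (0 : ℝ) 1 :=
    fun y hy t ht => ⟨by nlinarith [hy.1, hy.2, ht.1], by nlinarith [hy.1, hy.2, ht.2]⟩
  have m2 : ∀ y ∈ Icc (0 : ℝ) 1, ∀ t ∈ Icc (0 : ℝ) 1, y - t * y ∈ Icc (0 : ℝ) 1 :=
    fun y hy t ht => ⟨by nlinarith [hy.1, hy.2, ht.2], by nlinarith [hy.1, hy.2, ht.1]⟩
  have m3 : ∀ m : ℕ, 1 / ((m : ℝ) + 1) ∈ Icc (0 : ℝ) 1 := fun m =>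
    ⟨by positivity, (div_le_one (by positivity)).2 (by simp)⟩
  have := cl_cont
  refine ⟨fun m x => slope (fun t => F (cl x + t * (1 - cl x)) - F (cl x - t * cl x)) 0 (1 / (m + 1)),
    fun m => ?_, fun x => ?_⟩
  · simp only [slope_def_field, zero_mul, add_zero, sub_zero, sub_self]
    exact ((c.comp_continuous (by fun_prop) fun x => m1 _ (cl_mem x) _ (m3 m)).sub
      (c.comp_continuous (by fun_prop) fun x => m2 _ (cl_mem x) _ (m3 m))).div_const _
  have hy := cl_mem x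
  beta_reduce
  rw [Function.comp]
  generalize cl x = y at hy
  have d1 := HasDerivWithinAt.comp_of_eq (0 : ℝ) (h y hy) (((hasDerivWithinAt_id (0 : ℝ)
    (Icc 0 1)).mul_const (1 - y)).const_add y) (fun t ht => m1 y hy t ht) (by simp)
  have d2 := HasDerivWithinAt.comp_of_eq (0 : ℝ) (h y hy) (((hasDerivWithinAt_id (0 : ℝ)
    (Icc 0 1)).mul_const y).const_sub y) (fun t ht => m2 y hy t ht) (by simp)
  have d3 := hasDerivWithinAt_iff_tendsto_slope.1 (d1.sub d2)
  rw [show f y * (1 * (1 - y)) - f y * -(1 * y) = f y by ring] at d3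
  exact d3.comp (tendsto_nhdsWithin_iff.2 ⟨tendsto_one_div_add_atTop_nhds_zero_nat,
    .of_forall fun m => ⟨m3 m, (Nat.one_div_pos_of_nat).ne'⟩⟩)

end Pool.Agent.KS6_22.DB
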