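import Pool.Agent.KS6_22.DB.A

set_option autoImplicit false

namespace Pool.Agent.KS6_22.DB

open Filter Topology Set Metric

variable {g : ℕ → ℝ → ℝ} {n : ℕ}

/-- Continuity points of the next composition, relative to a closed set, are dense in the closed set. -/
theorem cont_on' (h : ∀ i, B1 (g i)) {D O : Set (Z g n)} (h1 : IsClosed D) (hO : IsOpen O)
    (h2 : (D ∩ O).Nonempty) :
    ∃ p ∈ D ∩ O, ∀ ε > 0, ∃ r > 0, ∀ x ∈ D, dist x p < r → |ch g (n + 1) x - ch g (n + 1) p| < ε := by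
  obtain ⟨C, c1, rfl⟩ := isClosed_induced_iff.1 h1
  obtain ⟨W, w1, rfl⟩ := isOpen_induced_iff.1 hO
  have := (((gd (n := n) h).inter c1.isGδ).inter w1.isGδ).baireSpace_of_t2Space_locallyCompactSpace
  obtain ⟨x, hx, hx'⟩ := h2
  have : Nonempty ↥(range (gam g n) ∩ C ∩ W) := ⟨⟨_, ⟨mem_range_self x, hx⟩, hx'⟩⟩
  obtain ⟨u, u1, u2⟩ := h n
  obtain ⟨⟨_, ⟨⟨p, rfl⟩, p1⟩, p2⟩, hp⟩ := cont_pt (Y := ↥(range (gam g n) ∩ C ∩ W))
    (u := fun m q => u m (q.1 (Fin.last n)))
    (fun m => (u1 m).comp ((continuous_apply _).comp continuous_subtype_val)) fun q => u2 _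
  refine ⟨p, ⟨p1, p2⟩, fun ε hε => ?_⟩
  obtain ⟨r, r0, hr⟩ := Metric.continuousAt_iff.1 hp ε hε
  obtain ⟨r', r0', hr'⟩ := Metric.isOpen_iff.1 hO p p2
  exact ⟨min r r', lt_min r0 r0', fun y hy h =>
    hr (x := ⟨_, ⟨mem_range_self y, hy⟩, hr' (h.trans_le (min_le_right _ _))⟩) (h.trans_le (min_le_left _ _))⟩

/-- A set of reals as a subset of `Z g n`. -/
def SZ (g : ℕ → ℝ → ℝ) (n : ℕ) (A : Set ℝ) : Set (Z g n) := A

/-- A real as a point of `Z g n`. -/
def el (g : ℕ → ℝ → ℝ) (n : ℕ) (p : ℝ) : Z g n := p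

/-- The frontier of `A` in the topology of the first `n` compositions. -/
def F (g : ℕ → ℝ → ℝ) (A : Set ℝ) (n : ℕ) : Set ℝ := {p | el g n p ∈ frontier (SZ g n A)}

theorem mem_int {A : Set ℝ} {p : ℝ} : el g n p ∈ interior (SZ g n A) ↔
    ∃ ε > 0, ∀ x, (∀ j ≤ n, |ch g j x - ch g j p| < ε) → x ∈ A := by
  rw [mem_interior_iff_mem_nhds, Metric.mem_nhds_iff]
  refine exists_congr fun ε => and_congr_right fun hε => ⟨fun h x hx => ?_, fun h x hx => ?_⟩
  · exact h (show el g n x ∈ ball (el g n p) ε from (dist_lt hε).2 hx)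
  · exact h x ((dist_lt hε).1 hx)

theorem compl_eq {A : Set ℝ} : interior (SZ g n Aᶜ) = (closure (SZ g n A))ᶜ :=
  interior_compl (s := SZ g n A)

theorem frontier_compl' {A : Set ℝ} : frontier (SZ g n Aᶜ) = frontier (SZ g n A) :=
  frontier_compl (SZ g n A)

theorem not_F {A : Set ℝ} {p : ℝ} (h : p ∉ F g A n) :
    (∃ ε > 0, ∀ x, (∀ j ≤ n, |ch g j x - ch g j p| < ε) → x ∈ A) ∨
    (∃ ε > 0, ∀ x, (∀ j ≤ n, |ch g j x - ch g j p| < ε) → x ∈ Aᶜ) := by
  have h' : ¬ (el g n p ∈ closure (SZ g n A) ∧ el g n p ∉ interior (SZ g n A)) := h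
  rw [not_and_or, not_not] at h'
  rcases h' with h' | h'
  · right
    refine mem_int.1 ?_
    rw [compl_eq]
    exact h'
  · exact Or.inl (mem_int.1 h')

theorem of_int {A : Set ℝ} {p : ℝ}
    (h : (∃ ε > 0, ∀ x, (∀ j ≤ n, |ch g j x - ch g j p| < ε) → x ∈ A) ∨
    (∃ ε > 0, ∀ x, (∀ j ≤ n, |ch g j x - ch g j p| < ε) → x ∈ Aᶜ)) : p ∉ F g A n := by
  rintro ⟨h1, h2⟩
  rcases h with h | h
  · exact h2 (mem_int.2 h)
  · have := mem_int.2 h
    rw [compl_eq] at this
    exact this h1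

theorem F_anti {A : Set ℝ} : F g A (n + 1) ⊆ F g A n := by
  intro p hp
  by_contra hc
  refine of_int ?_ hp
  rcases not_F hc with ⟨ε, h1, h2⟩ | ⟨ε, h1, h2⟩
  · exact Or.inl ⟨ε, h1, fun x hx => h2 x fun j hj => hx j (by omega)⟩
  · exact Or.inr ⟨ε, h1, fun x hx => h2 x fun j hj => hx j (by omega)⟩

theorem F_step (h : ∀ i, Dar (g i)) (h' : ∀ i, B1 (g i)) {A : Set ℝ} {p : ℝ} (hp : p ∈ F g A n)
    {ρ : ℝ} (hρ : 0 < ρ) : ∃ q ∈ F g A (n + 1), ∀ j ≤ n, |ch g j q - ch g j p| < ρ := by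
  haveI := conn h h' n
  obtain ⟨q, ⟨q1, q2⟩, q3⟩ := cont_on' (g := g) (n := n) h' (D := frontier (SZ g n A))
    (O := ball (el g n p) ρ) isClosed_frontier isOpen_ball ⟨el g n p, hp, mem_ball_self hρ⟩
  refine ⟨q, ?_, (dist_lt hρ).1 q2⟩
  by_contra hc
  rcases not_F hc with ⟨ε, h1, h2⟩ | ⟨ε, h1, h2⟩
  · obtain ⟨r, hr, a3⟩ := q3 ε h1
    have hqA : q ∈ SZ g n A := h2 q fun j _ => by simpa using h1
    refine core (g := g) (n := n) h (A := SZ g n Aᶜ) (p := q) (by rw [frontier_compl']; exact q1)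
      (fun h => h hqA) h1 (fun x hx h => h (h2 x hx)) hr ?_
    rw [frontier_compl']; exact a3
  · obtain ⟨r, hr, a3⟩ := q3 ε h1
    have hqA : q ∉ SZ g n A := h2 q fun j _ => by simpa using h1
    exact core (g := g) (n := n) h (A := SZ g n A) (p := q) q1 hqA h1 (fun x hx => h2 x hx) hr a3

theorem F_zero (h : ∀ i, Dar (g i)) (h' : ∀ i, B1 (g i)) {A : Set ℝ} (h1 : A.Nonempty)
    (h2 : A ≠ univ) : (F g A 0).Nonempty := by
  haveI := conn h h' 0
  obtain ⟨x, hx⟩ := (nonempty_frontier_iff (s := SZ g 0 A)).2 ⟨h1, h2⟩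
  exact ⟨x, hx⟩

/-- `F g A n` is closed in `Z g n`. -/
theorem F_closed {A : Set ℝ} {p : ℝ} (h : ∀ ε > 0, ∃ q ∈ F g A n, ∀ j ≤ n, |ch g j q - ch g j p| < ε) :
    p ∈ F g A n := by
  have h1 : IsClosed (frontier (SZ g n A)) := isClosed_frontier
  have h3 : el g n p ∈ closure (frontier (SZ g n A)) := by
    refine Metric.mem_closure_iff.2 fun ε hε => ?_
    obtain ⟨q, hq, h2⟩ := h ε hε
    refine ⟨el g n q, hq, ?_⟩
    rw [dist_comm]
    exact (dist_lt hε).2 h2
  exact h1.closure_subset h3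

/-- The joint graph of all compositions is connected: there is no separation. -/
theorem no_sep (h : ∀ i, Dar (g i)) (h' : ∀ i, B1 (g i)) {A : Set ℝ} (h1 : A.Nonempty)
    (h2 : A ≠ univ) (h3 : ∀ p : ℝ, ∃ n, p ∉ F g A n) : False := by
  -- the graphs are `G_δ`
  choose V V1 V2 using fun i => (isGδ_iff_eq_iInter_nat.1 (h' i).gd)
  have hV : ∀ i m, ∀ x, (x, g i x) ∈ V i m := fun i m x => by
    have : ((x, g i x) : ℝ × ℝ) ∈ {q : ℝ × ℝ | q.2 = g i q.1} := rfl
    rw [V2] at this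
    exact mem_iInter.1 this m
  -- the step of the construction
  have step : ∀ (n : ℕ) (p r : ℝ), p ∈ F g A n → 0 < r → ∃ q s : ℝ, q ∈ F g A (n + 1) ∧ 0 < s ∧
      s ≤ r / 2 ∧ (∀ j ≤ n, |ch g j q - ch g j p| + s ≤ r) ∧
      ∀ y : ℕ → ℝ, (∀ j ≤ n + 1, |y j - ch g j q| ≤ s) → ∀ i < n + 1, ∀ m < n + 1,
        (y i, y (i + 1)) ∈ V i m := by
    intro n p r hp hr
    obtain ⟨q, q1, q2⟩ := F_step h h' hp (half_pos hr)
    have e1 : ∀ i m : ℕ, ∃ s > 0, ∀ a b : ℝ, |a - ch g i q| < s → |b - ch g (i + 1) q| < s →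
        (a, b) ∈ V i m := by
      intro i m
      obtain ⟨s, s1, s2⟩ := Metric.isOpen_iff.1 (V1 i m) (ch g i q, ch g (i + 1) q) (hV i m _)
      refine ⟨s, s1, fun a b ha hb => s2 ?_⟩
      rw [mem_ball, Prod.dist_eq]
      exact max_lt ha hb
    choose σ σ1 σ2 using e1
    obtain ⟨s, s1, s2⟩ : ∃ s > 0, ∀ i < n + 1, ∀ m < n + 1, s < σ i m := by
      have hne : (Finset.range (n + 1) ×ˢ Finset.range (n + 1)).Nonempty := by simp
      obtain ⟨x, hx, hmin⟩ := Finset.exists_min_image (Finset.range (n + 1) ×ˢ Finset.range (n + 1))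
        (fun x => σ x.1 x.2) hne
      refine ⟨σ x.1 x.2 / 2, half_pos (σ1 _ _), fun i hi m hm => ?_⟩
      have := hmin (i, m) (by simp; omega)
      have h4 := σ1 x.1 x.2
      simp only at this
      linarith
    refine ⟨q, min s (r / 2), q1, lt_min s1 (half_pos hr), min_le_right _ _, fun j hj => ?_,
      fun y hy i hi m hm => σ2 i m _ _ ?_ ?_⟩
    · have := q2 j hj
      have := min_le_right s (r / 2)
      linarith
    · exact (hy i (by omega)).trans_lt ((min_le_left _ _).trans_lt (s2 i hi m hm))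
    · exact (hy (i + 1) (by omega)).trans_lt ((min_le_left _ _).trans_lt (s2 i hi m hm))
  choose! P R hP hR hR2 hB hV' using step
  obtain ⟨p0, hp0⟩ := F_zero h h' h1 h2
  let S : ℕ → ℝ × ℝ := fun n => Nat.rec (p0, 1) (fun n s => (P n s.1 s.2, R n s.1 s.2)) n
  have S0 : S 0 = (p0, 1) := rfl
  have Ss : ∀ n, S (n + 1) = (P n (S n).1 (S n).2, R n (S n).1 (S n).2) := fun n => rfl
  have inv : ∀ n, (S n).1 ∈ F g A n ∧ 0 < (S n).2 := by
    intro n
    induction n with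
    | zero => exact ⟨hp0, one_pos⟩
    | succ n ih => rw [Ss]; exact ⟨hP n _ _ ih.1 ih.2, hR n _ _ ih.1 ih.2⟩
  have hr : ∀ n, (S n).2 ≤ (1 / 2) ^ n := by
    intro n
    induction n with
    | zero => simp [S0]
    | succ n ih =>
      have := hR2 n _ _ (inv n).1 (inv n).2
      rw [Ss, pow_succ]
      simp only
      linarith
  -- nested boxes
  have nest : ∀ n k, ∀ j ≤ n, |ch g j (S (n + k)).1 - ch g j (S n).1| + (S (n + k)).2 ≤ (S n).2 := by
    intro n k
    induction k with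
    | zero => intro j hj; simp
    | succ k ih =>
      intro j hj
      have e1 := hB (n + k) _ _ (inv (n + k)).1 (inv (n + k)).2 j (by omega)
      have e2 := ih j hj
      have e3 := abs_sub_le (ch g j (S (n + k + 1)).1) (ch g j (S (n + k)).1) (ch g j (S n).1)
      have e4 : S (n + (k + 1)) = (P (n + k) (S (n + k)).1 (S (n + k)).2,
        R (n + k) (S (n + k)).1 (S (n + k)).2) := Ss (n + k)
      have e5 : S (n + k + 1) = (P (n + k) (S (n + k)).1 (S (n + k)).2,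
        R (n + k) (S (n + k)).1 (S (n + k)).2) := Ss (n + k)
      rw [e5] at e3
      rw [e4]
      simp only at e3 ⊢
      linarith
  -- the limit
  have cau : ∀ j, CauchySeq fun k => ch g j (S (j + k)).1 := by
    intro j
    refine cauchySeq_of_le_tendsto_0 (fun k => 2 * (1 / 2 : ℝ) ^ (j + k)) (fun a b N ha hb => ?_) ?_
    · have e1 := nest (j + N) (a - N) j (by omega)
      have e2 := nest (j + N) (b - N) j (by omega)
      rw [show j + N + (a - N) = j + a by omega] at e1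
      rw [show j + N + (b - N) = j + b by omega] at e2
      have e3 := abs_sub_le (ch g j (S (j + a)).1) (ch g j (S (j + N)).1) (ch g j (S (j + b)).1)
      rw [abs_sub_comm (ch g j (S (j + N)).1)] at e3
      rw [Real.dist_eq]
      have e4 := hr (j + N)
      have e5 := (inv (j + a)).2
      have e6 := (inv (j + b)).2
      linarith
    · have e1 : Tendsto (fun n : ℕ => (1 / 2 : ℝ) ^ n) atTop (𝓝 0) :=
        tendsto_pow_atTop_nhds_zero_of_lt_one (by norm_num) (by norm_num)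
      have e2 := (e1.comp (tendsto_add_atTop_nat j)).const_mul 2
      rw [mul_zero] at e2
      refine e2.congr fun k => ?_
      simp only [Function.comp, add_comm j k]
  choose y hy using fun j => cauchySeq_tendsto_of_complete (cau j)
  have hyb : ∀ n, ∀ j ≤ n, |y j - ch g j (S n).1| ≤ (S n).2 := by
    intro n j hj
    have e1 : Tendsto (fun k => |ch g j (S (j + k)).1 - ch g j (S n).1|) atTop
        (𝓝 |y j - ch g j (S n).1|) := ((hy j).sub_const _).abs
    refine le_of_tendsto e1 ?_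
    filter_upwards [eventually_ge_atTop (n - j)] with k hk
    have e2 := nest n (j + k - n) j hj
    rw [show n + (j + k - n) = j + k by omega] at e2
    have e3 := (inv (j + k)).2
    linarith
  have hyg : ∀ i, y (i + 1) = g i (y i) := by
    intro i
    have e1 : ((y i, y (i + 1)) : ℝ × ℝ) ∈ {q : ℝ × ℝ | q.2 = g i q.1} := by
      rw [V2]
      refine mem_iInter.2 fun m => ?_
      have e2 := hV' (max i m) _ _ (inv (max i m)).1 (inv (max i m)).2 y (fun j hj => by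
        have := hyb (max i m + 1) j hj
        rwa [Ss] at this) i (by omega) m (by omega)
      exact e2
    exact e1
  have hych : ∀ j, ch g j (y 0) = y j := by
    intro j
    induction j with
    | zero => rfl
    | succ j ih => rw [hyg, ← ih]; rfl
  obtain ⟨n, hn⟩ := h3 (y 0)
  refine hn (F_closed fun ε hε => ?_)
  obtain ⟨k, hk⟩ := exists_pow_lt_of_lt_one hε (show (1 / 2 : ℝ) < 1 by norm_num)
  have mono : ∀ k, F g A (n + k) ⊆ F g A n := by
    intro k
    induction k with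
    | zero => exact subset_rfl
    | succ k ih => exact F_anti.trans ih
  refine ⟨(S (n + k)).1, mono k (inv (n + k)).1, fun j hj => ?_⟩
  rw [hych, abs_sub_comm]
  refine (hyb (n + k) j (by omega)).trans_lt ((hr (n + k)).trans_lt (lt_of_le_of_lt ?_ hk))
  exact pow_le_pow_of_le_one (by norm_num) (by norm_num) (by omega)

/-- The joint graph `{(x, g₀ x, g₁ (g₀ x), …)}` in `ℝ^ℕ` is connected. -/
theorem joint (h : ∀ i, Dar (g i)) (h' : ∀ i, B1 (g i)) :
    IsPreconnected (range fun (x : ℝ) (j : ℕ) => ch g j x) := by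
  refine isPreconnected_iff_subset_of_disjoint.2 fun U V hU hV h1 h2 => ?_
  set Γ : ℝ → ℕ → ℝ := fun x j => ch g j x with hΓ
  have basis : ∀ W : Set (ℕ → ℝ), IsOpen W → ∀ p, Γ p ∈ W →
      ∃ n, ∃ ε > 0, ∀ x, (∀ j ≤ n, |ch g j x - ch g j p| < ε) → Γ x ∈ W := by
    intro W hW p hp
    obtain ⟨I, u, hu, hsub⟩ := isOpen_pi_iff.1 hW (Γ p) hp
    have e1 : ∀ i : ℕ, ∃ ε > 0, i ∈ I → ∀ a : ℝ, |a - ch g i p| < ε → a ∈ u i := by
      intro i
      by_cases hi : i ∈ I
      · obtain ⟨ε, h3, h4⟩ := Metric.isOpen_iff.1 (hu i hi).1 _ (hu i hi).2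
        exact ⟨ε, h3, fun _ a ha => h4 ha⟩
      · exact ⟨1, one_pos, fun h => absurd h hi⟩
    choose σ σ1 σ2 using e1
    obtain ⟨n, hn⟩ : ∃ n, ∀ i ∈ I, i ≤ n := ⟨I.sup id, fun i hi => Finset.le_sup (f := id) hi⟩
    obtain ⟨m, hm, hmin⟩ := Finset.exists_min_image (Finset.range (n + 1)) σ (by simp)
    refine ⟨n, σ m, σ1 m, fun x hx => hsub fun i hi => ?_⟩
    have hi' : i ∈ I := hi
    exact σ2 i hi' _ ((hx i (hn i hi')).trans_le (hmin i (by simp; have := hn i hi'; omega)))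
  by_contra hc
  rw [not_or] at hc
  have key : ∀ x, Γ x ∈ U ↔ Γ x ∉ V := by
    intro x
    have e1 := h1 (mem_range_self x)
    refine ⟨fun hu hv => ?_, fun hv => e1.resolve_right hv⟩
    have : Γ x ∈ range Γ ∩ (U ∩ V) := ⟨mem_range_self x, hu, hv⟩
    rw [h2] at this
    exact this
  refine no_sep h h' (A := {x | Γ x ∈ U}) ?_ ?_ fun p => ?_
  · by_contra hne
    rw [not_nonempty_iff_eq_empty] at hne
    refine hc.2 ?_
    rintro _ ⟨x, rfl⟩
    by_contra hv
    have : x ∈ {x | Γ x ∈ U} := (key x).2 hv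
    rw [hne] at this
    exact this
  · intro hu
    refine hc.1 ?_
    rintro _ ⟨x, rfl⟩
    have : x ∈ {x | Γ x ∈ U} := hu ▸ mem_univ x
    exact this
  · by_cases hp : Γ p ∈ U
    · obtain ⟨n, ε, h3, h4⟩ := basis U hU p hp
      exact ⟨n, of_int (Or.inl ⟨ε, h3, fun x hx => h4 x hx⟩)⟩
    · have hv : Γ p ∈ V := by
        by_contra hv
        exact hp ((key p).2 hv)
      obtain ⟨n, ε, h3, h4⟩ := basis V hV p hv
      exact ⟨n, of_int (Or.inr ⟨ε, h3, fun x hx hu => ((key x).1 hu) (h4 x hx)⟩)⟩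

end Pool.Agent.KS6_22.DB
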